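import Mathlib
import Pool.Agent.H97R2.BP.Defs
import Pool.Agent.H97R2.BP.Defs2

/-! Task FINE: finite pieces are injective. -/

open scoped ComplexOrder InnerProductSpace ComplexConjugate TensorProduct
open Finset H759R2.Kad H710R2.DP

noncomputable section

namespace H97R2.BP

namespace ZZ880

variable {H : Type} [NormedAddCommGroup H] [InnerProductSpace ℂ H] [CompleteSpace H]

theorem sum_sq_zero {k : ℕ} {v : Fin k → H} (h : ∑ j, ‖v j‖ ^ 2 ≤ 0) (j : Fin k) : v j = 0 := by
  have h1 : ‖v j‖ ^ 2 ≤ ∑ j, ‖v j‖ ^ 2 :=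
    Finset.single_le_sum (f := fun j => ‖v j‖ ^ 2) (fun i _ => sq_nonneg _) (Finset.mem_univ j)
  have h2 : ‖v j‖ ^ 2 = 0 := le_antisymm (h1.trans h) (sq_nonneg _)
  exact norm_eq_zero.mp (pow_eq_zero_iff (by norm_num) |>.mp h2)

theorem norm_pr {e : H →L[ℂ] H} (he : IsPr e) : ‖e‖ ≤ 1 := by
  have h1 : ‖e‖ * ‖e‖ = ‖e‖ := by
    rw [← CStarRing.norm_star_mul_self, he.1, he.2]
  by_contra hcon
  push Not at hcon
  nlinarith

end ZZ880

open ZZ880 in
theorem bp_finE (h1 : Z_rn) (h2 : Z_supp) : Z_finE := by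
  intro H _ _ _ M p hp k η Ψ hne hpη hΨ hcomp
  obtain ⟨e, heM, hePr, heη, heann, hemax⟩ := h2 H M k η
  -- elements which vanish on the vectors
  have K1 : ∀ h ∈ M, (∀ j, h (η j) = 0) → ∀ j, (star h) (η j) = 0 := by
    intro h hh hz
    have hs : star h ∈ M := star_mem hh
    have h3 := (hcomp h hh).1
    have h4 := (hcomp (star h) hs).2
    rw [star_star, hΨ.comm h hh (star h)] at h4
    have h5 : ∑ j, ‖h (η j)‖ ^ 2 = 0 := Finset.sum_eq_zero fun j _ => by rw [hz j]; simp
    rw [h5, mul_zero] at h3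
    exact fun j => sum_sq_zero (v := fun j => (star h) (η j)) (by linarith) j
  have K2 : ∀ h ∈ M, (∀ j, h (η j) = 0) → h * e = 0 := by
    intro h hh hz
    refine heann h fun t ht j => ?_
    have h3 : h * t = t * h := VonNeumannAlgebra.mem_commutant_iff.mp ht h hh
    have h4 := congrArg (fun f : H →L[ℂ] H => f (η j)) h3
    simp only [ContinuousLinearMap.mul_apply] at h4
    rw [h4, hz j, map_zero]
  have h1e : (1 - e) ∈ M := sub_mem (one_mem M) heM
  have h1es : star (1 - e) = 1 - e := by rw [star_sub, star_one, hePr.1]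
  have h1eη : ∀ j, (1 - e) (η j) = 0 := by
    intro j
    rw [ContinuousLinearMap.sub_apply, ContinuousLinearMap.one_apply, heη j, sub_self]
  have K3 : ∀ m ∈ M, (1 - e) * m * e = 0 := by
    intro m hm
    refine K2 _ (mul_mem h1e hm) fun j => ?_
    have h3 := K1 (star m * (1 - e)) (mul_mem (star_mem hm) h1e) (fun j => by
      rw [ContinuousLinearMap.mul_apply, h1eη j, map_zero]) j
    rwa [star_mul, star_star, h1es] at h3
  have K4 : ∀ m ∈ M, m * e = e * m * e := by
    intro m hm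
    have h3 := K3 m hm
    rw [sub_mul, sub_mul, one_mul, sub_eq_zero] at h3
    exact h3
  have K5 : ∀ m ∈ M, e * m = m * e := by
    intro m hm
    have h3 := congrArg star (K4 (star m) (star_mem hm))
    simp only [star_mul, star_star, hePr.1] at h3
    rw [h3, ← mul_assoc, ← K4 m hm]
  -- uniqueness
  have U : ∀ a ∈ M, ∀ b ∈ M, (∀ c ∈ M, Ψ (c * a) = Ψ (c * b)) → e * a = e * b := by
    intro a ha b hb hab
    have hk : a - b ∈ M := sub_mem ha hb
    have h3 : Ψ (star (a - b) * (a - b)) = 0 := by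
      rw [mul_sub, map_sub, hab _ (star_mem hk), sub_self]
    have h4 := (hcomp (a - b) hk).2
    rw [h3, Complex.zero_re, mul_zero] at h4
    have h5 := K2 (a - b) hk (sum_sq_zero (v := fun j => (a - b) (η j)) h4)
    rw [← K5 _ hk, mul_sub, sub_eq_zero] at h5
    exact h5
  choose h hM hph hnorm hΨh using h1 H M p hp k η Ψ hΨ (fun x hx => (hcomp x hx).1)
  refine ⟨e, ⟨hePr, heM, K5⟩, ?_, hemax p hp.2.1 hpη, ?_⟩
  · obtain ⟨j, hj⟩ := hne
    intro h0
    apply hj
    rw [← heη j, h0]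
    rfl
  · refine ⟨
      { toFun := fun y => e * h y
        map_add' := ?_
        map_smul' := ?_ }, ?_, ?_, ?_⟩
    · intro x y
      rw [← mul_add]
      refine U _ (hM _) _ (add_mem (hM x) (hM y)) fun c hc => ?_
      rw [hΨh (x + y) c hc, mul_add, map_add, mul_add, map_add, hΨh x c hc, hΨh y c hc]
    · intro c x
      rw [RingHom.id_apply, ← mul_smul_comm]
      have hsm : c • h x ∈ M := M.toStarSubalgebra.smul_mem (hM x) c
      refine U _ (hM _) _ hsm fun d hd => ?_
      rw [hΨh (c • x) d hd, mul_smul_comm, map_smul, mul_smul_comm, map_smul, hΨh x d hd]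
    · intro x
      show ‖e * h x‖ ≤ ‖x‖
      calc ‖e * h x‖ ≤ ‖e‖ * ‖h x‖ := norm_mul_le _ _
        _ ≤ 1 * ‖x‖ := mul_le_mul (norm_pr hePr) (hnorm x) (norm_nonneg _) zero_le_one
        _ = ‖x‖ := one_mul _
    · intro x
      show e * h x ∈ M ∧ e * (e * h x) = e * h x ∧ e * h x * e = e * h x
      refine ⟨mul_mem heM (hM x), ?_, ?_⟩
      · rw [← mul_assoc, hePr.2]
      · rw [mul_assoc, ← K5 _ (hM x), ← mul_assoc, hePr.2]
    · intro m hm hem _
      show e * h m = m
      rw [U (h m) (hM m) m hm (fun c hc => hΨh m c hc), hem]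

end H97R2.BP
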